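import Pool.Agent.Q224.ID.Core

/-!
# Certificates for extensions of bounded defect
-/

set_option autoImplicit false

namespace Q224.ID

/-- The certificate: the word `z 0 ... z (L-1)` ends with a palindrome `Q = [s, L)` which is a
complete return to the palindrome `P = [s, s+l)`, `P` does not occur before `s`, and the letter
before `Q` differs from the letter after its prefix `P`. -/
structure Cert (z : ℕ → ℕ) (L s l : ℕ) : Prop where
  hl : 1 ≤ l
  hL : s + l < L
  palQ : PalS z s L
  palP : PalS z s (s + l)
  occ : ∀ i, i + l ≤ L → Occ z i s l → i = s ∨ i + l = L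
  ne : s = 0 ∨ z (s - 1) ≠ z (s + l)

theorem exists_mod (m p q : ℕ) (hp : 0 < p) : ∃ a, a < p ∧ (a + m) % p = q % p := by
  refine ⟨(q + (p - m % p)) % p, Nat.mod_lt _ hp, ?_⟩
  rw [Nat.mod_add_mod]
  have h1 : m % p ≤ p := (Nat.mod_lt _ hp).le
  have h2 : m % p + p * (m / p) = m := Nat.mod_add_div m p
  have h3 : q + (p - m % p) + m = q + p * (m / p + 1) := by
    rw [mul_add, mul_one]
    omega
  rw [h3, Nat.add_mul_mod_self_left]

variable {z : ℕ → ℕ} {L s l : ℕ}

theorem Cert.per (c : Cert z L s l) : ∀ i, s ≤ i → i < L →
    z i = z (s + (i - s) % (L - s - l)) := by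
  obtain ⟨hl, hL, palQ, palP, -, -⟩ := c
  intro i
  induction i using Nat.strong_induction_on with
  | _ i ih =>
    intro h1 h2
    by_cases h3 : i - s < L - s - l
    · rw [Nat.mod_eq_of_lt h3]
      congr 1
      omega
    · have h4 : z i = z (i - (L - s - l)) := by
        have e1 : z i = z (s + L - 1 - i) := palQ _ _ h1 (by omega) (by omega)
        have e2 : z (s + L - 1 - i) = z (i - (L - s - l)) :=
          palP _ _ (by omega) (by omega) (by omega)
        rw [e1, e2]
      rw [h4, ih _ (by omega) (by omega) (by omega)]
      congr 2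
      have h5 : i - (L - s - l) - s = i - s - (L - s - l) := by omega
      rw [h5]
      exact (Nat.mod_eq_sub_mod (by omega)).symm

/-- the periodic extension -/
def ext (z : ℕ → ℕ) (L s l : ℕ) (i : ℕ) : ℕ :=
  if i < s then z i else z (s + (i - s) % (L - s - l))

theorem Cert.ext_eq (c : Cert z L s l) {i : ℕ} (hi : i < L) : ext z L s l i = z i := by
  unfold ext
  split_ifs with h
  · rfl
  · exact (c.per i (by omega) hi).symm

theorem Cert.ext_range (c : Cert z L s l) (i : ℕ) : ∃ j, j < L ∧ ext z L s l i = z j := by
  have hL := c.hL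
  have hl := c.hl
  unfold ext
  split_ifs with h
  · exact ⟨i, by omega, rfl⟩
  · refine ⟨_, ?_, rfl⟩
    have := Nat.mod_lt (i - s) (show 0 < L - s - l by omega)
    omega

theorem Cert.sym (c : Cert z L s l) {i j : ℕ} (hi : s ≤ i) (hj : s ≤ j)
    (h : ((i - s) + (j - s) + 1) % (L - s - l) = (L - s) % (L - s - l)) :
    ext z L s l i = ext z L s l j := by
  have hL := c.hL
  have hl := c.hl
  set p := L - s - l with hp
  have hp0 : 0 < p := by omega
  unfold ext
  rw [if_neg (by omega), if_neg (by omega), ← hp]
  set a := (i - s) % p with ha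
  have hap : a < p := Nat.mod_lt _ hp0
  set b := L - s - 1 - a with hb
  have h1 : z (s + a) = z (s + b) := c.palQ _ _ (by omega) (by omega) (by omega)
  have h2 : z (s + b) = z (s + b % p) := by
    have := c.per (s + b) (by omega) (by omega)
    rw [Nat.add_sub_cancel_left, ← hp] at this
    exact this
  rw [h1, h2]
  congr 2
  have h3 : (a + 1 + b) % p = (a + 1 + (j - s)) % p := by
    have e1 : a + 1 + b = L - s := by omega
    rw [e1, ← h]
    have e2 : i - s + (j - s) + 1 = (i - s) + (1 + (j - s)) := by omega
    have e3 : a + 1 + (j - s) = a + (1 + (j - s)) := by omega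
    rw [e2, e3, ha, Nat.mod_add_mod]
  have h4 : b ≡ (j - s) [MOD p] := Nat.ModEq.add_left_cancel' (a + 1) h3
  exact h4

theorem Cert.new (c : Cert z L s l) {n : ℕ} (hn : L ≤ n) : NewF (ext z L s l) n := by
  have hL := c.hL
  have hl := c.hl
  obtain ⟨a, ha, hmod⟩ := exists_mod (n - s + 1) (L - s - l) (L - s) (by omega)
  refine ⟨s + a, by omega, ?_, ?_⟩
  · intro i j hi hj hij
    refine c.sym (by omega) (by omega) ?_
    rw [← hmod]
    congr 1
    omega
  · intro i0 hi0 hocc
    have hlt : i0 < s + a := by omega
    rcases Nat.eq_zero_or_pos a with h0 | hpos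
    · subst h0
      have h1 : Occ z i0 s l := by
        intro j hj
        have := hocc j (by omega)
        rw [c.ext_eq (by omega), c.ext_eq (by omega)] at this
        exact this
      rcases c.occ i0 (by omega) h1 with h | h <;> omega
    · have h1 : Occ z (i0 + (L - s - l - a)) s l := by
        intro j hj
        have h2 := hocc (L - s - l - a + j) (by omega)
        have e1 : i0 + (L - s - l - a + j) = i0 + (L - s - l - a) + j := by omega
        have e2 : s + a + (L - s - l - a + j) = s + (L - s - l) + j := by omega
        rw [e1, e2, c.ext_eq (by omega), c.ext_eq (by omega)] at h2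
        rw [h2, c.per (s + (L - s - l) + j) (by omega) (by omega),
          c.per (s + j) (by omega) (by omega)]
        congr 2
        have e3 : s + (L - s - l) + j - s = j + (L - s - l) := by omega
        have e4 : s + j - s = j := by omega
        rw [e3, e4, Nat.add_mod_right]
      rcases c.occ _ (by omega) h1 with h | h
      · have h2 := hocc (L - s - l - a - 1) (by omega)
        have e1 : i0 + (L - s - l - a - 1) = s - 1 := by omega
        have e2 : s + a + (L - s - l - a - 1) = s + (L - s - l) - 1 := by omega
        rw [e1, e2, c.ext_eq (by omega), c.ext_eq (by omega)] at h2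
        have h3 : z (s + (L - s - l) - 1) = z (s + l) :=
          c.palQ _ _ (by omega) (by omega) (by omega)
        rcases c.ne with h4 | h4
        · omega
        · exact h4 (h2.trans h3)
      · omega

theorem Cert.defect_le (c : Cert z L s l) (n : ℕ) :
    defect (pre (ext z L s l) n) ≤ defect (pre z L) := by
  have h0 : pre (ext z L s l) L = pre z L := pre_congr (fun i hi => c.ext_eq hi)
  rw [← h0]
  rcases le_total n L with h | h
  · exact defect_pre_mono _ h
  · exact (defect_const (M := n) (fun m hm _ => c.new hm) n h le_rfl).le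

end Q224.ID
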