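import Pool.Agent.Q224.ID.Konig

/-!
# Computability of the infinite defect
-/

set_option autoImplicit false

namespace Q224.ID

open Primrec

section gen

variable {α β : Type*} [Primcodable α] [Primcodable β]

theorem ex_list {L : α → List β} (hL : Primrec L) {P : α → β → Prop}
    (hP : PrimrecPred fun q : α × β => P q.1 q.2) : PrimrecPred fun a => ∃ b ∈ L a, P a b :=
  (PrimrecRel.exists_mem_list (R := fun b a => P a b) (hP.comp (snd.pair fst))).comp hL Primrec.id

theorem all_list {L : α → List β} (hL : Primrec L) {P : α → β → Prop}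
    (hP : PrimrecPred fun q : α × β => P q.1 q.2) : PrimrecPred fun a => ∀ b ∈ L a, P a b :=
  (PrimrecRel.forall_mem_list (R := fun b a => P a b) (hP.comp (snd.pair fst))).comp hL Primrec.id

theorem ex_lt {N : α → ℕ} (hN : Primrec N) {P : α → ℕ → Prop}
    (hP : PrimrecPred fun q : α × ℕ => P q.1 q.2) : PrimrecPred fun a => ∃ x, x < N a ∧ P a x :=
  (ex_list (list_range.comp hN) hP).of_eq (by simp)

theorem all_lt {N : α → ℕ} (hN : Primrec N) {P : α → ℕ → Prop}
    (hP : PrimrecPred fun q : α × ℕ => P q.1 q.2) : PrimrecPred fun a => ∀ x, x < N a → P a x :=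
  (all_list (list_range.comp hN) hP).of_eq (by simp)

theorem imp {P Q : α → Prop} (hP : PrimrecPred P) (hQ : PrimrecPred Q) :
    PrimrecPred fun a => P a → Q a :=
  (hP.not.or hQ).of_eq (by intro a; tauto)

theorem eqN {f g : α → ℕ} (hf : Primrec f) (hg : Primrec g) : PrimrecPred fun a => f a = g a :=
  Primrec.eq.comp hf hg

theorem leN {f g : α → ℕ} (hf : Primrec f) (hg : Primrec g) : PrimrecPred fun a => f a ≤ g a :=
  nat_le.comp hf hg

theorem ltN {f g : α → ℕ} (hf : Primrec f) (hg : Primrec g) : PrimrecPred fun a => f a < g a :=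
  nat_lt.comp hf hg

theorem addN {f g : α → ℕ} (hf : Primrec f) (hg : Primrec g) : Primrec fun a => f a + g a :=
  nat_add.comp hf hg

theorem subN {f g : α → ℕ} (hf : Primrec f) (hg : Primrec g) : Primrec fun a => f a - g a :=
  nat_sub.comp hf hg

theorem getN {v : α → List ℕ} {i : α → ℕ} (hv : Primrec v) (hi : Primrec i) :
    Primrec fun a => (v a).getD (i a) 0 :=
  (list_getD 0).comp hv hi

end gen

section preds

variable {α : Type*} [Primcodable α]

theorem palP {v : α → List ℕ} {s t : α → ℕ} (hv : Primrec v) (hs : Primrec s) (ht : Primrec t) :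
    PrimrecPred fun a => PalS (fun i => (v a).getD i 0) (s a) (t a) := by
  refine PrimrecPred.of_eq (p := fun a => ∀ i, i < t a → ∀ j, j < t a → s a ≤ i → s a ≤ j →
    i + j + 1 = s a + t a → (v a).getD i 0 = (v a).getD j 0) ?_ ?_
  · apply all_lt ht
    apply all_lt (α := α × ℕ) (N := fun q => t q.1) (ht.comp fst)
    apply imp (leN (hs.comp (fst.comp fst)) (snd.comp fst))
    apply imp (leN (hs.comp (fst.comp fst)) snd)
    apply imp (eqN (addN (addN (snd.comp fst) snd) (Primrec.const 1))
      (addN (hs.comp (fst.comp fst)) (ht.comp (fst.comp fst))))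
    exact eqN (getN (hv.comp (fst.comp fst)) (snd.comp fst)) (getN (hv.comp (fst.comp fst)) snd)
  · intro a
    constructor
    · intro h i j hi hj hij
      exact h i (by omega) j (by omega) hi hj hij
    · intro h i _ j _ hi hj hij
      exact h i j hi hj hij

theorem occP {v : α → List ℕ} {i s m : α → ℕ} (hv : Primrec v) (hi : Primrec i) (hs : Primrec s)
    (hm : Primrec m) : PrimrecPred fun a => Occ (fun i => (v a).getD i 0) (i a) (s a) (m a) := by
  unfold Occ
  apply all_lt hm
  exact eqN (getN (hv.comp fst) (addN (hi.comp fst) snd)) (getN (hv.comp fst) (addN (hs.comp fst) snd))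

theorem newP {v : α → List ℕ} {n : α → ℕ} (hv : Primrec v) (hn : Primrec n) :
    PrimrecPred fun a => NewF (fun i => (v a).getD i 0) (n a) := by
  refine PrimrecPred.of_eq (p := fun a => ∃ b, b < n a + 1 ∧
    (PalS (fun i => (v a).getD i 0) b (n a + 1) ∧ ∀ i, i < n a + 1 → i + (n a + 1 - b) ≤ n a →
      ¬ Occ (fun i => (v a).getD i 0) i b (n a + 1 - b))) ?_ ?_
  · apply ex_lt (addN hn (Primrec.const 1))
    refine PrimrecPred.and (palP (hv.comp fst) snd (addN (hn.comp fst) (Primrec.const 1))) ?_
    apply all_lt (α := α × ℕ) (N := fun q => n q.1 + 1) (addN (hn.comp fst) (Primrec.const 1))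
    have h1 : Primrec fun q : (α × ℕ) × ℕ => n q.1.1 + 1 - q.1.2 :=
      subN (addN (hn.comp (fst.comp fst)) (Primrec.const 1)) (snd.comp fst)
    apply imp (leN (addN snd h1) (hn.comp (fst.comp fst)))
    exact (occP (hv.comp (fst.comp fst)) snd (snd.comp fst) h1).not
  · intro a
    constructor
    · rintro ⟨b, hb, h1, h2⟩
      exact ⟨b, by omega, h1, fun i hi => h2 i (by omega) hi⟩
    · rintro ⟨b, hb, h1, h2⟩
      exact ⟨b, by omega, h1, fun i _ hi => h2 i hi⟩

open Classical in
theorem defect_eq_count (z : ℕ → ℕ) (n : ℕ) :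
    defect (pre z n) = ((List.range n).filter (fun m => ¬ NewF z m)).length := by
  induction n with
  | zero => simp [pre, defect_nil]
  | succ n ih =>
    rw [defect_pre_succ, ih, List.range_succ, List.filter_append, List.length_append]
    congr 1
    by_cases h : NewF z n
    · simp [h]
    · simp [h]

theorem defect_primrec : Primrec defect := by
  classical
  have h0 : PrimrecRel fun (m : ℕ) (v : List ℕ) => ¬ NewF (fun i => v.getD i 0) m :=
    (newP (α := ℕ × List ℕ) snd fst).not
  have h1 := h0.listFilter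
  have h2 : Primrec fun v : List ℕ => ((List.range v.length).filter
      (fun m => ¬ NewF (fun i => v.getD i 0) m)).length :=
    list_length.comp (h1.comp (list_range.comp list_length) Primrec.id)
  refine h2.of_eq ?_
  intro v
  rw [← defect_eq_count, pre_getD]

theorem certP {v : α → List ℕ} {s l : α → ℕ} (hv : Primrec v) (hs : Primrec s) (hl : Primrec l) :
    PrimrecPred fun a => Cert (fun i => (v a).getD i 0) (v a).length (s a) (l a) := by
  have hL : Primrec fun a => (v a).length := list_length.comp hv
  refine PrimrecPred.of_eq (p := fun a => 1 ≤ l a ∧ (s a + l a < (v a).length ∧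
    (PalS (fun i => (v a).getD i 0) (s a) (v a).length ∧
    (PalS (fun i => (v a).getD i 0) (s a) (s a + l a) ∧
    ((∀ i, i < (v a).length + 1 → i + l a ≤ (v a).length →
      Occ (fun i => (v a).getD i 0) i (s a) (l a) → (i = s a ∨ i + l a = (v a).length)) ∧
    (s a = 0 ∨ ¬ (v a).getD (s a - 1) 0 = (v a).getD (s a + l a) 0)))))) ?_ ?_
  · refine PrimrecPred.and (leN (Primrec.const 1) hl) ?_
    refine PrimrecPred.and (ltN (addN hs hl) hL) ?_
    refine PrimrecPred.and (palP hv hs hL) ?_
    refine PrimrecPred.and (palP hv hs (addN hs hl)) ?_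
    refine PrimrecPred.and ?_ ?_
    · apply all_lt (addN hL (Primrec.const 1))
      apply imp (leN (addN snd (hl.comp fst)) (hL.comp fst))
      apply imp (occP (hv.comp fst) snd (hs.comp fst) (hl.comp fst))
      exact (eqN snd (hs.comp fst)).or (eqN (addN snd (hl.comp fst)) (hL.comp fst))
    · exact (eqN hs (Primrec.const 0)).or
        (eqN (getN hv (subN hs (Primrec.const 1))) (getN hv (addN hs hl))).not
  · intro a
    constructor
    · rintro ⟨h1, h2, h3, h4, h5, h6⟩
      exact ⟨h1, h2, h3, h4, fun i hi ho => h5 i (by omega) hi ho, h6⟩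
    · rintro ⟨h1, h2, h3, h4, h5, h6⟩
      exact ⟨h1, h2, h3, h4, fun i _ hi ho => h5 i hi ho, h6⟩

theorem certLP {w v : α → List ℕ} {k : α → ℕ} (hw : Primrec w) (hv : Primrec v)
    (hk : Primrec k) : PrimrecPred fun a => CertL (w a) (k a) (v a) := by
  have hL : Primrec fun a => (v a).length := list_length.comp hv
  refine PrimrecPred.of_eq (p := fun a => w a = (v a).take (w a).length ∧
    ((∀ x ∈ v a, ∃ y ∈ w a, x = y) ∧ (defect (v a) ≤ k a ∧
      (∃ s, s < (v a).length ∧ ∃ l, l < (v a).length ∧
        Cert (fun i => (v a).getD i 0) (v a).length s l)))) ?_ ?_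
  · refine PrimrecPred.and (Primrec.eq.comp hw (list_take.comp (list_length.comp hw) hv)) ?_
    refine PrimrecPred.and ?_ ?_
    · apply all_list hv
      apply ex_list (α := α × ℕ) (L := fun q => w q.1) (hw.comp fst)
      exact eqN (snd.comp fst) snd
    · refine PrimrecPred.and (leN (defect_primrec.comp hv) hk) ?_
      apply ex_lt hL
      apply ex_lt (α := α × ℕ) (N := fun q => (v q.1).length) (hL.comp fst)
      exact certP (hv.comp (fst.comp fst)) (snd.comp fst) snd
  · intro a
    unfold CertL
    rw [← List.prefix_iff_eq_take]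
    simp only [exists_eq_right']
    constructor
    · rintro ⟨h1, h2, h3, s, -, l, -, h4⟩
      exact ⟨h1, h2, h3, s, l, h4⟩
    · rintro ⟨h1, h2, h3, s, l, h4⟩
      have := h4.hL
      exact ⟨h1, h2, h3, s, by omega, l, by omega, h4⟩

/-- the words of length `n` over the letters of `w` -/
def words (w : List ℕ) (n : ℕ) : List (List ℕ) :=
  Nat.rec [[]] (fun _ L => L.flatMap (fun v => w.map (fun x => x :: v))) n

theorem mem_words {w : List ℕ} {n : ℕ} {v : List ℕ} :
    v ∈ words w n ↔ v.length = n ∧ ∀ x ∈ v, x ∈ w := by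
  induction n generalizing v with
  | zero =>
    have e : words w 0 = [[]] := rfl
    rw [e, List.mem_singleton, List.length_eq_zero_iff]
    constructor
    · rintro rfl
      simp
    · exact fun h => h.1
  | succ n ih =>
    have e : words w (n + 1) = (words w n).flatMap (fun v => w.map (fun x => x :: v)) := rfl
    rw [e]
    simp only [List.mem_flatMap, List.mem_map]
    constructor
    · rintro ⟨u, hu, x, hx, rfl⟩
      rw [ih] at hu
      refine ⟨by simp [hu.1], ?_⟩
      intro y hy
      rcases List.mem_cons.1 hy with rfl | hy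
      · exact hx
      · exact hu.2 y hy
    · rintro ⟨h1, h2⟩
      rcases v with _ | ⟨x, u⟩
      · simp at h1
      · refine ⟨u, ih.2 ⟨by simpa using h1, fun y hy => h2 y (List.mem_cons_of_mem _ hy)⟩, x,
          h2 x (by simp), rfl⟩

theorem words_primrec : Primrec₂ words := by
  have : Primrec₂ fun (w : List ℕ) (q : ℕ × List (List ℕ)) =>
      q.2.flatMap (fun v => w.map (fun x => x :: v)) := by
    refine Primrec.list_flatMap (snd.comp snd) ?_
    refine Primrec.list_map (fst.comp fst) ?_
    exact list_cons.comp snd (snd.comp fst)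
  exact Primrec.nat_rec (f := fun _ => [[]]) (Primrec.const _) this

end preds

/-- search -/
theorem comp_find {α : Type*} [Primcodable α] {p : α → ℕ → Prop} [∀ a, DecidablePred (p a)]
    (hp : Computable fun q : α × ℕ => decide (p q.1 q.2)) (h : ∀ a, ∃ n, p a n) :
    Computable fun a => Nat.find (h a) := by
  have h0 : Partrec₂ fun (a : α) (n : ℕ) => (Part.some (decide (p a n)) : Part Bool) := hp
  refine (Partrec.rfind h0).of_eq_tot ?_
  intro a
  refine Nat.mem_rfind.2 ⟨?_, ?_⟩
  · rw [Part.mem_some_iff]
    exact (decide_eq_true (Nat.find_spec (h a))).symm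
  · intro m hm
    rw [Part.mem_some_iff]
    exact (decide_eq_false (Nat.find_min (h a) hm)).symm

open Classical in
theorem R_computable : Computable fun q : List ℕ × ℕ => decide (R q.1 q.2) := by
  set H : List ℕ × ℕ → ℕ → Prop := fun q n => CertL q.1 q.2 (Denumerable.ofNat (List ℕ) n) ∨
    ∀ v ∈ words q.1 n, ¬ defect (q.1 ++ v) ≤ q.2 with hH
  have hHp : PrimrecPred fun r : (List ℕ × ℕ) × ℕ => H r.1 r.2 := by
    refine PrimrecPred.or ?_ ?_
    · exact certLP (fst.comp fst) ((Primrec.ofNat (List ℕ)).comp snd) (snd.comp fst)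
    · apply all_list (words_primrec.comp (fst.comp fst) snd)
      refine (leN (defect_primrec.comp (list_append.comp (fst.comp (fst.comp fst)) snd))
        (snd.comp (fst.comp fst))).not
  have hex : ∀ q, ∃ n, H q n := by
    intro q
    by_cases hR : R q.1 q.2
    · obtain ⟨v, hv⟩ := R_iff_cert.1 hR
      refine ⟨Encodable.encode v, Or.inl ?_⟩
      rw [Denumerable.ofNat_encode]
      exact hv
    · rw [R_iff_all] at hR
      push Not at hR
      obtain ⟨n, hn⟩ := hR
      refine ⟨n, Or.inr ?_⟩
      intro v hv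
      rw [mem_words] at hv
      exact not_le.2 (hn v hv.1 hv.2)
  have hfind : Computable fun q => Nat.find (hex q) := comp_find hHp.decide.to_comp hex
  have hcert : Computable fun q : List ℕ × ℕ =>
      decide (CertL q.1 q.2 (Denumerable.ofNat (List ℕ) (Nat.find (hex q)))) := by
    have h1 : PrimrecPred fun r : (List ℕ × ℕ) × ℕ =>
        CertL r.1.1 r.1.2 (Denumerable.ofNat (List ℕ) r.2) :=
      certLP (fst.comp fst) ((Primrec.ofNat (List ℕ)).comp snd) (snd.comp fst)
    exact h1.decide.to_comp.comp (Computable.id.pair hfind)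
  refine hcert.of_eq ?_
  intro q
  rw [decide_eq_decide]
  constructor
  · intro h
    exact R_iff_cert.2 ⟨_, h⟩
  · intro hR
    rcases Nat.find_spec (hex q) with h | h
    · exact h
    · exfalso
      obtain ⟨v, h1, h2, h3⟩ := R_iff_all.1 hR (Nat.find (hex q))
      exact h v (mem_words.2 ⟨h1, h2⟩) h3

/-- The infinite defect is computable. -/
theorem main : ∃ f : List ℕ → ℕ, Computable f ∧
    ∀ w : List ℕ, w ≠ [] → IsLeast (extensionDefects w) (f w : ℕ∞) := by
  classical
  set p : List ℕ → ℕ → Prop := fun w k => w = [] ∨ (R w k ∨ R w.reverse k) with hp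
  have hex : ∀ w, ∃ k, p w k := by
    intro w
    by_cases hw : w = []
    · exact ⟨0, Or.inl hw⟩
    · obtain ⟨k, hk⟩ := R_exists hw
      exact ⟨k, Or.inr (Or.inl hk)⟩
  have hpc : Computable fun q : List ℕ × ℕ => decide (p q.1 q.2) := by
    have h1 : Computable fun q : List ℕ × ℕ => decide (q.1 = []) :=
      (Primrec.eq.comp (fst (α := List ℕ) (β := ℕ)) (Primrec.const [])).decide.to_comp
    have h20 : Computable fun q : List ℕ × ℕ => (q.1.reverse, q.2) :=
      (Primrec.pair (list_reverse.comp fst) snd).to_comp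
    have h2 : Computable fun q : List ℕ × ℕ => decide (R q.1.reverse q.2) :=
      Computable.comp (f := fun q : List ℕ × ℕ => decide (R q.1 q.2))
        (g := fun q : List ℕ × ℕ => (q.1.reverse, q.2)) R_computable h20
    have h3 : Computable fun q : List ℕ × ℕ =>
        (decide (q.1 = []) || (decide (R q.1 q.2) || decide (R q.1.reverse q.2))) :=
      (Primrec.or.to_comp.comp h1 (Primrec.or.to_comp.comp R_computable h2))
    refine h3.of_eq ?_
    intro q
    simp [hp]
  refine ⟨fun w => Nat.find (hex w), comp_find hpc hex, ?_⟩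
  intro w hw
  have hspec : R w (Nat.find (hex w)) ∨ R w.reverse (Nat.find (hex w)) := by
    rcases Nat.find_spec (hex w) with h | h
    · exact absurd h hw
    · exact h
  have hmin : ∀ d ∈ extensionDefects w, ((Nat.find (hex w) : ℕ) : ℕ∞) ≤ d := by
    intro d hd
    by_contra hcon
    push Not at hcon
    obtain ⟨m, rfl⟩ := ENat.ne_top_iff_exists.1 (ne_top_of_lt hcon)
    have hm : m < Nat.find (hex w) := by exact_mod_cast hcon
    exact Nat.find_min (hex w) hm (Or.inr (R_of_ext ⟨_, hd, le_rfl⟩))
  constructor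
  · obtain ⟨d, hd, hle⟩ := ext_of_R hw hspec
    have : d = ((Nat.find (hex w) : ℕ) : ℕ∞) := le_antisymm hle (hmin d hd)
    rwa [this] at hd
  · exact hmin

end Q224.ID
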