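import Pool.Agent.Q224.ID.Defs

/-!
# The defect counts the prefixes without a new palindromic suffix
-/

set_option autoImplicit false

namespace Q224.ID

open List

theorem pal_finite (w : List ℕ) : (palFactors w).Finite := by
  have h : (palFactors w) ⊆ {p | p ∈ w.sublists} := by
    rintro p ⟨hp, _⟩
    show p ∈ w.sublists
    rw [List.mem_sublists]
    exact hp.sublist
  exact (List.finite_toSet _).subset h

/-- a new palindromic suffix -/
def NewS (u : List ℕ) (c : ℕ) : Prop := ∃ p, p <:+ u ++ [c] ∧ p.reverse = p ∧ ¬ p <:+: u

theorem suffix_unique {u p q : List ℕ} {c : ℕ} (hp : p <:+ u ++ [c]) (hpp : p.reverse = p)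
    (hpn : ¬ p <:+: u) (hq : q <:+ u ++ [c]) (hqp : q.reverse = q) (hlt : p.length < q.length) :
    False := by
  have h1 : p <:+ q := List.suffix_of_suffix_length_le hp hq hlt.le
  have h2 : p <+: q := by
    have := List.reverse_prefix.2 h1
    rwa [hpp, hqp] at this
  obtain ⟨t, ht⟩ := h2
  obtain ⟨s, hs⟩ := hq
  rcases List.eq_nil_or_concat t with rfl | ⟨t', d, rfl⟩
  · rw [List.append_nil] at ht
    rw [ht] at hlt
    exact lt_irrefl _ hlt
  · apply hpn
    refine ⟨s, t', ?_⟩
    rw [← ht, List.concat_eq_append, ← List.append_assoc, ← List.append_assoc] at hs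
    exact (List.append_inj' hs rfl).1

theorem pal_concat (u : List ℕ) (c : ℕ) : palFactors (u ++ [c]) =
    palFactors u ∪ {p | p <:+ u ++ [c] ∧ p.reverse = p ∧ ¬ p <:+: u} := by
  ext p
  simp only [palFactors, Set.mem_ofPred_eq, Set.mem_union]
  rw [List.infix_concat_iff]
  tauto

open Classical in
theorem ncard_concat (u : List ℕ) (c : ℕ) : (palFactors (u ++ [c])).ncard =
    (palFactors u).ncard + (if NewS u c then 1 else 0) := by
  by_cases h : NewS u c
  · rw [if_pos h]
    obtain ⟨p, hp1, hp2, hp3⟩ := h
    have hs : {p | p <:+ u ++ [c] ∧ p.reverse = p ∧ ¬ p <:+: u} = {p} := by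
      ext q
      simp only [Set.mem_ofPred_eq, Set.mem_singleton_iff]
      constructor
      · rintro ⟨hq1, hq2, hq3⟩
        rcases lt_trichotomy p.length q.length with hlt | heq | hgt
        · exact (suffix_unique hp1 hp2 hp3 hq1 hq2 hlt).elim
        · have := List.suffix_of_suffix_length_le hp1 hq1 heq.le
          exact (this.eq_of_length heq).symm
        · exact (suffix_unique hq1 hq2 hq3 hp1 hp2 hgt).elim
      · rintro rfl
        exact ⟨hp1, hp2, hp3⟩
    rw [pal_concat, hs, Set.union_singleton,
      Set.ncard_insert_of_notMem (fun hm => hp3 hm.1) (pal_finite u)]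
  · rw [if_neg h, add_zero, pal_concat]
    have hs : {p | p <:+ u ++ [c] ∧ p.reverse = p ∧ ¬ p <:+: u} = ∅ := by
      ext q
      simp only [Set.mem_ofPred_eq, Set.mem_empty_iff_false, iff_false]
      intro hq
      exact h ⟨q, hq⟩
    rw [hs, Set.union_empty]

theorem ncard_nil : (palFactors []).ncard = 1 := by
  have : palFactors [] = {[]} := by
    ext p
    simp only [palFactors, Set.mem_ofPred_eq, Set.mem_singleton_iff]
    constructor
    · rintro ⟨h, _⟩
      exact List.eq_nil_of_infix_nil h
    · rintro rfl
      exact ⟨List.infix_refl _, rfl⟩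
  rw [this, Set.ncard_singleton]

theorem ncard_le (u : List ℕ) : (palFactors u).ncard ≤ u.length + 1 := by
  classical
  induction u using List.reverseRecOn with
  | nil => rw [ncard_nil]; simp
  | append_singleton u c ih =>
    rw [ncard_concat, List.length_append, List.length_singleton]
    split_ifs <;> omega

theorem defect_nil : defect [] = 0 := by
  unfold defect
  rw [ncard_nil]
  rfl

open Classical in
theorem defect_concat (u : List ℕ) (c : ℕ) :
    defect (u ++ [c]) = defect u + (if NewS u c then 0 else 1) := by
  unfold defect
  rw [ncard_concat, List.length_append, List.length_singleton]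
  have := ncard_le u
  split_ifs <;> omega

theorem defect_concat_le (u : List ℕ) (c : ℕ) : defect u ≤ defect (u ++ [c]) := by
  classical
  rw [defect_concat]
  omega

theorem defect_append_le (u v : List ℕ) : defect u ≤ defect (u ++ v) := by
  induction v using List.reverseRecOn with
  | nil => simp
  | append_singleton v c ih =>
    rw [← List.append_assoc]
    exact ih.trans (defect_concat_le _ _)

theorem pal_reverse (u : List ℕ) : palFactors u.reverse = palFactors u := by
  ext p
  simp only [palFactors, Set.mem_ofPred_eq]
  constructor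
  · rintro ⟨h, hp⟩
    refine ⟨?_, hp⟩
    have := List.reverse_infix.2 h
    rwa [hp, List.reverse_reverse] at this
  · rintro ⟨h, hp⟩
    refine ⟨?_, hp⟩
    have := List.reverse_infix.2 h
    rwa [hp] at this

theorem defect_reverse (u : List ℕ) : defect u.reverse = defect u := by
  unfold defect
  rw [pal_reverse, List.length_reverse]

theorem defect_append_le' (u v : List ℕ) : defect v ≤ defect (u ++ v) := by
  have := defect_append_le v.reverse u.reverse
  rwa [← List.reverse_append, defect_reverse, defect_reverse] at this

theorem defect_infix {u v : List ℕ} (h : u <:+: v) : defect u ≤ defect v := by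
  obtain ⟨s, t, rfl⟩ := h
  exact (defect_append_le' s u).trans (defect_append_le _ t)

/-! ### Words as functions -/

/-- the prefix of length `n` -/
def pre (z : ℕ → ℕ) (n : ℕ) : List ℕ := (List.range n).map z

theorem pre_length (z : ℕ → ℕ) (n : ℕ) : (pre z n).length = n := by simp [pre]

theorem pre_succ (z : ℕ → ℕ) (n : ℕ) : pre z (n + 1) = pre z n ++ [z n] := by
  simp [pre, List.range_succ]

theorem pre_getElem (z : ℕ → ℕ) (n i : ℕ) (h : i < (pre z n).length) : (pre z n)[i] = z i := by
  simp [pre]

/-- the segment `[a, b)` is a palindrome -/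
def PalS (z : ℕ → ℕ) (a b : ℕ) : Prop := ∀ i j, a ≤ i → a ≤ j → i + j + 1 = a + b → z i = z j

/-- the segment of length `m` starting at `a` occurs at `i` -/
def Occ (z : ℕ → ℕ) (i a m : ℕ) : Prop := ∀ j, j < m → z (i + j) = z (a + j)

/-- the prefix of length `n + 1` has a palindromic suffix which does not occur in the prefix of
length `n` -/
def NewF (z : ℕ → ℕ) (n : ℕ) : Prop :=
  ∃ a, a ≤ n ∧ PalS z a (n + 1) ∧ ∀ i, i + (n + 1 - a) ≤ n → ¬ Occ z i a (n + 1 - a)

/-- segments -/
def seg (z : ℕ → ℕ) (a m : ℕ) : List ℕ := (List.range m).map (fun i => z (a + i))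

theorem seg_length (z : ℕ → ℕ) (a m : ℕ) : (seg z a m).length = m := by simp [seg]

theorem seg_getElem (z : ℕ → ℕ) (a m i : ℕ) (h : i < (seg z a m).length) :
    (seg z a m)[i] = z (a + i) := by
  simp [seg]

theorem pre_split (z : ℕ → ℕ) (a m r : ℕ) :
    pre z (a + m + r) = pre z a ++ seg z a m ++ seg z (a + m) r := by
  apply List.ext_getElem
  · simp [pre_length, seg_length]
    omega
  · intro i h1 h2
    rw [pre_length] at h1
    rw [pre_getElem]
    simp only [List.getElem_append, List.length_append, pre_length, seg_length]
    split_ifs with h3 h4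
    · rw [pre_getElem]
    · rw [seg_getElem]
      congr 1
      omega
    · rw [seg_getElem]
      congr 1
      omega

theorem seg_reverse {z : ℕ → ℕ} {a m : ℕ} : (seg z a m).reverse = seg z a m ↔ PalS z a (a + m) := by
  constructor
  · intro h i j hi hj hij
    have hlen : i - a < (seg z a m).length := by rw [seg_length]; omega
    have h1 : (seg z a m)[i - a] = (seg z a m).reverse[i - a]'(by
        rw [List.length_reverse]; exact hlen) := by
      congr 1
      exact h.symm
    rw [List.getElem_reverse, seg_getElem, seg_getElem] at h1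
    rw [seg_length] at h1
    have e1 : a + (i - a) = i := by omega
    have e2 : a + (m - 1 - (i - a)) = j := by omega
    rw [e1, e2] at h1
    exact h1
  · intro h
    apply List.ext_getElem
    · simp
    · intro i h1 h2
      rw [List.getElem_reverse, seg_getElem, seg_getElem]
      rw [seg_length] at h2 ⊢
      exact h _ _ (by omega) (by omega) (by omega)

theorem seg_eq {z : ℕ → ℕ} {i a m : ℕ} : seg z i m = seg z a m ↔ Occ z i a m := by
  constructor
  · intro h j hj
    have h1 : (seg z i m)[j]'(by rw [seg_length]; exact hj) =
        (seg z a m)[j]'(by rw [seg_length]; exact hj) := by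
      congr 1
    rwa [seg_getElem, seg_getElem] at h1
  · intro h
    apply List.ext_getElem
    · simp [seg_length]
    · intro j h1 h2
      rw [seg_getElem, seg_getElem]
      rw [seg_length] at h1
      exact h j h1

theorem infix_pre {z : ℕ → ℕ} {n : ℕ} {p : List ℕ} :
    p <:+: pre z n ↔ ∃ i, i + p.length ≤ n ∧ p = seg z i p.length := by
  constructor
  · rintro ⟨s, t, h⟩
    have hl := congrArg List.length h
    rw [pre_length, List.length_append, List.length_append] at hl
    refine ⟨s.length, by omega, ?_⟩
    apply List.ext_getElem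
    · rw [seg_length]
    · intro j h1 h2
      rw [seg_getElem]
      have h3 : (s ++ p ++ t)[s.length + j]'(by simp; omega) = p[j] := by
        rw [List.getElem_append_left (by simp; omega), List.getElem_append_right (by omega)]
        congr 1
        omega
      rw [← h3]
      have h4 : (s ++ p ++ t)[s.length + j]'(by simp; omega) =
          (pre z n)[s.length + j]'(by rw [pre_length]; omega) := by
        congr 1
      rw [h4, pre_getElem]
  · rintro ⟨i, hi, hp⟩
    have := pre_split z i p.length (n - i - p.length)
    have e : i + p.length + (n - i - p.length) = n := by omega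
    rw [e] at this
    rw [this, ← hp]
    exact ⟨_, _, rfl⟩

theorem suffix_pre {z : ℕ → ℕ} {n : ℕ} {p : List ℕ} :
    p <:+ pre z n ↔ p.length ≤ n ∧ p = seg z (n - p.length) p.length := by
  constructor
  · rintro ⟨s, h⟩
    have hl := congrArg List.length h
    rw [pre_length, List.length_append] at hl
    refine ⟨by omega, ?_⟩
    apply List.ext_getElem
    · rw [seg_length]
    · intro j h1 h2
      rw [seg_getElem]
      have h3 : (s ++ p)[s.length + j]'(by simp; omega) = p[j] := by
        rw [List.getElem_append_right (by omega)]
        congr 1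
        omega
      rw [← h3]
      have h4 : (s ++ p)[s.length + j]'(by simp; omega) =
          (pre z n)[s.length + j]'(by rw [pre_length]; omega) := by
        congr 1
      rw [h4, pre_getElem]
      congr 1
      omega
  · rintro ⟨hi, hp⟩
    have := pre_split z (n - p.length) p.length 0
    have e : n - p.length + p.length + 0 = n := by omega
    rw [e] at this
    rw [this, ← hp]
    simp [seg]

theorem newS_iff {z : ℕ → ℕ} {n : ℕ} : NewS (pre z n) (z n) ↔ NewF z n := by
  unfold NewS NewF
  rw [← pre_succ]
  constructor
  · rintro ⟨p, hp1, hp2, hp3⟩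
    rw [suffix_pre] at hp1
    obtain ⟨hl, hp⟩ := hp1
    have hne : p.length ≠ 0 := by
      intro h0
      have : p = [] := List.length_eq_zero_iff.1 h0
      apply hp3
      rw [this]
      exact List.nil_infix
    refine ⟨n + 1 - p.length, by omega, ?_, ?_⟩
    · have h1 : (seg z (n + 1 - p.length) p.length).reverse = seg z (n + 1 - p.length) p.length := by
        rw [← hp]; exact hp2
      have h2 := seg_reverse.1 h1
      have e : n + 1 - p.length + p.length = n + 1 := by omega
      rwa [e] at h2
    · intro i hi hocc
      have e : n + 1 - (n + 1 - p.length) = p.length := by omega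
      rw [e] at hi hocc
      apply hp3
      rw [infix_pre]
      exact ⟨i, hi, hp.trans (seg_eq.2 hocc).symm⟩
  · rintro ⟨a, ha, hpal, hnew⟩
    refine ⟨seg z a (n + 1 - a), ?_, ?_, ?_⟩
    · rw [suffix_pre, seg_length]
      refine ⟨by omega, ?_⟩
      congr 1
      omega
    · rw [seg_reverse]
      have e : a + (n + 1 - a) = n + 1 := by omega
      rwa [e]
    · rw [infix_pre, seg_length]
      rintro ⟨i, hi, he⟩
      exact hnew i hi (seg_eq.1 he.symm)

open Classical in
theorem defect_pre_succ (z : ℕ → ℕ) (n : ℕ) :
    defect (pre z (n + 1)) = defect (pre z n) + (if NewF z n then 0 else 1) := by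
  rw [pre_succ, defect_concat]
  congr 1
  simp only [newS_iff]

theorem defect_pre_mono (z : ℕ → ℕ) : Monotone (fun n => defect (pre z n)) := by
  apply monotone_nat_of_le_succ
  intro n
  show defect (pre z n) ≤ defect (pre z (n + 1))
  rw [pre_succ]
  exact defect_concat_le _ _

theorem pre_congr {z z' : ℕ → ℕ} {n : ℕ} (h : ∀ i, i < n → z i = z' i) : pre z n = pre z' n := by
  apply List.map_congr_left
  intro i hi
  exact h i (List.mem_range.1 hi)

/-- the defect does not grow beyond `L` if all later letters give new palindromes -/
theorem defect_const {z : ℕ → ℕ} {L M : ℕ} (h : ∀ n, L ≤ n → n < M → NewF z n) :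
    ∀ n, L ≤ n → n ≤ M → defect (pre z n) = defect (pre z L) := by
  classical
  intro n hn
  induction n, hn using Nat.le_induction with
  | base => intro _; rfl
  | succ n hn ih =>
    intro hM
    rw [defect_pre_succ, if_pos (h n hn (by omega)), add_zero, ih (by omega)]

end Q224.ID
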