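import Mathlib

/-!
# Defect and infinite defect of finite words

Words are lists of natural numbers; the letters are the natural numbers (every finite alphabet
embeds).  An infinite word is a function on the integers, restricted to the positive integers
(right-infinite words), to the negative integers (left-infinite words) or to all integers (two-way
infinite words).
-/

set_option autoImplicit false

namespace Q224.ID

/-- The palindromic factors of a word, the empty word included. -/
def palFactors (w : List ℕ) : Set (List ℕ) := {p | p <:+: w ∧ p.reverse = p}

/-- The defect `|w| + 1 - |Pal(w)|` of a finite word. -/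
noncomputable def defect (w : List ℕ) : ℕ := w.length + 1 - (palFactors w).ncard

/-- The three index sets of infinite words. -/
def IsIndexSet (I : Set ℤ) : Prop := I = {i | 0 < i} ∨ I = {i | i < 0} ∨ I = Set.univ

/-- `u` is a factor of the infinite word `z` with index set `I`. -/
def IsFactor (I : Set ℤ) (z : ℤ → ℕ) (u : List ℕ) : Prop :=
  ∃ a : ℤ, (∀ i : ℕ, i < u.length → a + i ∈ I) ∧
    u = (List.range u.length).map (fun i : ℕ => z (a + i))

/-- The defect of an infinite word: the supremum of the defects of its finite factors. -/
noncomputable def defectInf (I : Set ℤ) (z : ℤ → ℕ) : ℕ∞ :=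
  ⨆ u ∈ {u | IsFactor I z u}, (defect u : ℕ∞)

/-- The defects of the infinite words which have `w` as a factor and use only letters of `w`. -/
def extensionDefects (w : List ℕ) : Set ℕ∞ :=
  {d | ∃ (I : Set ℤ) (z : ℤ → ℕ), IsIndexSet I ∧ IsFactor I z w ∧ (∀ i ∈ I, z i ∈ w) ∧
    d = defectInf I z}

end Q224.ID
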