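import Pool.Agent.Q224.ID.Cert

/-!
# Infinite words of bounded defect have certificates
-/

set_option autoImplicit false

namespace Q224.ID

open Classical in
/-- from some point on every prefix has a new palindromic suffix -/
theorem eventually_new {z : ℕ → ℕ} {k : ℕ} (h : ∀ n, defect (pre z n) ≤ k) :
    ∃ N, ∀ n, N ≤ n → NewF z n := by
  by_contra hcon
  push Not at hcon
  have key : ∀ d, ∃ n, d ≤ defect (pre z n) := by
    intro d
    induction d with
    | zero => exact ⟨0, Nat.zero_le _⟩
    | succ d ih =>
      obtain ⟨n, hn⟩ := ih
      obtain ⟨m, hm, hm2⟩ := hcon n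
      refine ⟨m + 1, ?_⟩
      rw [defect_pre_succ, if_neg hm2]
      have := defect_pre_mono z hm
      simp only at this
      omega
  obtain ⟨n, hn⟩ := key (k + 1)
  have := h n
  omega

/-- the maximal palindrome with a given centre -/
theorem exists_max {z : ℕ → ℕ} {a N : ℕ} (hp : PalS z a (N + 1)) (ha : a ≤ N) :
    ∃ r, r ≤ a ∧ PalS z (a - r) (N + 1 + r) ∧ (a - r = 0 ∨ z (a - r - 1) ≠ z (N + 1 + r)) := by
  classical
  by_contra hcon
  push Not at hcon
  have key : ∀ r, r ≤ a → PalS z (a - r) (N + 1 + r) := by
    intro r
    induction r with
    | zero => intro _; exact hp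
    | succ r ih =>
      intro hr
      obtain ⟨h1, h2⟩ := hcon r (by omega) (ih (by omega))
      intro i j hi hj hij
      by_cases hi2 : i = a - (r + 1)
      · have e1 : i = a - r - 1 := by omega
        have e2 : j = N + 1 + r := by omega
        rw [e1, e2]
        exact h2
      · by_cases hj2 : j = a - (r + 1)
        · have e1 : j = a - r - 1 := by omega
          have e2 : i = N + 1 + r := by omega
          rw [e1, e2]
          exact h2.symm
        · exact ih (by omega) i j (by omega) (by omega) (by omega)
  have := hcon a le_rfl (key a le_rfl)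
  omega

/-- the new palindromic suffixes are arbitrarily long -/
theorem exists_long {z : ℕ → ℕ} {N : ℕ} (hN : ∀ n, N ≤ n → NewF z n) (A : Finset ℕ)
    (hA : ∀ i, z i ∈ A) (M l : ℕ) : ∃ m, M ≤ m ∧ ∃ t, t + l ≤ m + 1 ∧ t ≤ m ∧
      PalS z t (m + 1) ∧ ∀ i, i + (m + 1 - t) ≤ m → ¬ Occ z i t (m + 1 - t) := by
  classical
  by_contra hcon
  push Not at hcon
  have h1 : ∀ n : ℕ, NewF z (max N M + n) := fun n => hN _ (by omega)
  choose a ha hpal hnew using h1
  have hlen : ∀ n, max N M + n + 1 < a n + l := by
    intro n
    by_contra hc
    obtain ⟨i, hi, ho⟩ := hcon (max N M + n) (by omega) (a n) (by omega) (ha n) (hpal n)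
    exact hnew n i hi ho
  let F : ℕ → List A := fun n => (List.range (max N M + n + 1 - a n)).map
    (fun i => (⟨z (a n + i), hA _⟩ : A))
  have hFl : ∀ n, (F n).length = max N M + n + 1 - a n := fun n => by simp [F]
  have hFinj : Function.Injective F := by
    intro n n' hnn
    by_contra hne
    have key : ∀ n n', n < n' → F n = F n' → False := by
      intro n n' hlt he
      have hl : max N M + n + 1 - a n = max N M + n' + 1 - a n' := by
        rw [← hFl, ← hFl, he]
      have han := ha n
      have han' := ha n'
      refine hnew n' (a n) (by omega) ?_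
      intro j hj
      have h2 : (F n)[j]'(by rw [hFl]; omega) = (F n')[j]'(by rw [hFl]; omega) := by
        congr 1
      have h3 := congrArg Subtype.val h2
      simp [F] at h3
      exact h3
    rcases lt_or_gt_of_ne hne with h | h
    · exact key n n' h hnn
    · exact key n' n h hnn.symm
  have hfin : (Set.range F).Finite := by
    refine (List.finite_length_lt A l).subset ?_
    rintro _ ⟨n, rfl⟩
    show (F n).length < l
    rw [hFl]
    have := hlen n
    have := ha n
    omega
  exact (Set.infinite_range_of_injective hFinj) hfin

theorem cert_exists {z : ℕ → ℕ} {k : ℕ} (h : ∀ n, defect (pre z n) ≤ k) (m0 : ℕ) (A : Finset ℕ)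
    (hA : ∀ i, z i ∈ A) : ∃ (z' : ℕ → ℕ) (L s l : ℕ), Cert z' L s l ∧ m0 ≤ L ∧
      (∀ i, i < m0 → z' i = z i) ∧ (∀ i, z' i ∈ A) ∧ defect (pre z' L) ≤ k := by
  classical
  obtain ⟨N0, hN0⟩ := eventually_new h
  set N := max N0 m0 with hN
  obtain ⟨a, ha, hpal, hnew⟩ := hN0 N (by omega)
  obtain ⟨r, hr, hP, hne⟩ := exists_max hpal ha
  set s := a - r with hs
  set l := N + 1 + r - s with hl
  have hsl : s + l = N + 1 + r := by omega
  have hfirst : ∀ i, i < s → ¬ Occ z i s l := by
    intro i hi hocc
    refine hnew (i + r) (by omega) ?_
    intro j hj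
    have := hocc (r + j) (by omega)
    have e1 : i + (r + j) = i + r + j := by omega
    have e2 : s + (r + j) = a + j := by omega
    rw [e1, e2] at this
    exact this
  have hP' : PalS z s (s + l) := by rw [hsl]; exact hP
  by_cases hex : ∃ j, s < j ∧ Occ z j s l
  · -- the second occurrence
    set j := Nat.find hex with hj
    obtain ⟨hj1, hj2⟩ := Nat.find_spec hex
    rw [← hj] at hj1 hj2
    have hjmin : ∀ i, s < i → i < j → ¬ Occ z i s l := by
      intro i h1 h2 h3
      exact Nat.find_min hex h2 ⟨h1, h3⟩
    have hQ : PalS z s (j + l) := by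
      obtain ⟨t, ht, htpal, htnew⟩ := hN0 (j + l - 1) (by omega)
      have e0 : j + l - 1 + 1 = j + l := by omega
      rw [e0] at htpal htnew
      have htj : t < j := by
        by_contra hc
        refine htnew (s + (t - j)) (by omega) ?_
        intro i hi
        have := hj2 (t - j + i) (by omega)
        have e1 : j + (t - j + i) = t + i := by omega
        have e2 : s + (t - j + i) = s + (t - j) + i := by omega
        rw [e1, e2] at this
        exact this.symm
      have hocc : Occ z t s l := by
        intro i hi
        have e1 : z (t + i) = z (j + (l - 1 - i)) := htpal _ _ (by omega) (by omega) (by omega)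
        have e2 : z (j + (l - 1 - i)) = z (s + (l - 1 - i)) := hj2 _ (by omega)
        have e3 : z (s + (l - 1 - i)) = z (s + i) := hP' _ _ (by omega) (by omega) (by omega)
        rw [e1, e2, e3]
      have hts : t = s := by
        rcases lt_trichotomy t s with h1 | h1 | h1
        · exact (hfirst t h1 hocc).elim
        · exact h1
        · exact (hjmin t h1 htj hocc).elim
      rwa [hts] at htpal
    refine ⟨z, j + l, s, l, ⟨by omega, by omega, hQ, hP', ?_, ?_⟩, by omega, fun _ _ => rfl, hA,
      h _⟩
    · intro i hi hocc
      rcases lt_trichotomy i s with h1 | h1 | h1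
      · exact (hfirst i h1 hocc).elim
      · exact Or.inl h1
      · right
        by_contra hc
        exact hjmin i h1 (by omega) hocc
    · rw [hsl]
      exact hne
  · -- a single occurrence
    push Not at hex
    obtain ⟨m, hm, t, htl, htm, htpal, htnew⟩ :=
      exists_long hN0 A hA (N + 1 + r) l
    have hts : s < t := by
      by_contra hc
      have hocc : Occ z (t + m + 1 - (s + l)) s l := by
        intro i hi
        have e1 : z (t + m + 1 - (s + l) + i) = z (s + (l - 1 - i)) :=
          htpal _ _ (by omega) (by omega) (by omega)
        have e2 : z (s + (l - 1 - i)) = z (s + i) := hP' _ _ (by omega) (by omega) (by omega)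
        rw [e1, e2]
      have heq : t + m + 1 - (s + l) = s := by
        rcases lt_trichotomy (t + m + 1 - (s + l)) s with h1 | h1 | h1
        · exact (hfirst _ h1 hocc).elim
        · exact h1
        · exact (hex _ h1 hocc).elim
      rcases hne with h0 | h0
      · omega
      · by_cases hts' : t = s
        · omega
        · apply h0
          exact htpal _ _ (by omega) (by omega) (by omega)
    let z' : ℕ → ℕ := fun i => if i ≤ m then z i else if i < t + m + 1 - s then z (t + m - i) else z 0
    have hz1 : ∀ i, i ≤ m → z' i = z i := fun i hi => if_pos hi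
    have hz2 : ∀ i, m < i → i < t + m + 1 - s → z' i = z (t + m - i) := by
      intro i h1 h2
      show (if i ≤ m then z i else if i < t + m + 1 - s then z (t + m - i) else z 0) = _
      rw [if_neg (by omega), if_pos h2]
    have hsym : ∀ i j, s ≤ i → s ≤ j → i + j = t + m → z' i = z' j := by
      have key : ∀ i j, s ≤ i → i ≤ j → i + j = t + m → z' i = z' j := by
        intro i j h1 h2 h3
        by_cases hjm : j ≤ m
        · rw [hz1 i (by omega), hz1 j hjm]
          exact htpal _ _ (by omega) (by omega) (by omega)
        · rw [hz1 i (by omega), hz2 j (by omega) (by omega)]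
          congr 1
          omega
      intro i j h1 h2 h3
      rcases le_total i j with h4 | h4
      · exact key i j h1 h4 h3
      · exact (key j i h2 h4 (by omega)).symm
    have hocc_iff : ∀ i, i + l ≤ m + 1 → (Occ z' i s l ↔ Occ z i s l) := by
      intro i hi
      constructor
      · intro ho j hj
        have := ho j hj
        rwa [hz1 _ (by omega), hz1 _ (by omega)] at this
      · intro ho j hj
        rw [hz1 _ (by omega), hz1 _ (by omega)]
        exact ho j hj
    have honly : ∀ i, Occ z i s l → i = s := by
      intro i ho
      rcases lt_trichotomy i s with h1 | h1 | h1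
      · exact (hfirst _ h1 ho).elim
      · exact h1
      · exact (hex _ h1 ho).elim
    have hPz' : PalS z' s (s + l) := by
      intro i j hi hj hij
      rw [hz1 i (by omega), hz1 j (by omega)]
      exact hP' i j hi hj hij
    have hnewz : ∀ n, m + 1 ≤ n → n < t + m + 1 - s → NewF z' n := by
      intro n hn1 hn2
      refine ⟨t + m - n, by omega, ?_, ?_⟩
      · intro i j hi hj hij
        exact hsym i j (by omega) (by omega) (by omega)
      · intro i hi hocc
        refine htnew (i + (n - m)) (by omega) ?_
        intro j hj
        have := hocc (n - m + j) (by omega)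
        have e1 : i + (n - m + j) = i + (n - m) + j := by omega
        have e2 : t + m - n + (n - m + j) = t + j := by omega
        rw [e1, e2, hz1 _ (by omega), hz1 _ (by omega)] at this
        exact this
    refine ⟨z', t + m + 1 - s, s, l, ⟨by omega, by omega, ?_, hPz', ?_, ?_⟩, by omega, ?_, ?_, ?_⟩
    · intro i j hi hj hij
      exact hsym i j hi hj (by omega)
    · intro i hi hocc
      by_cases h1 : i + l ≤ m + 1
      · exact Or.inl (honly i ((hocc_iff i h1).1 hocc))
      · right
        have his : s ≤ i := by omega
        -- the mirror image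
        have hmir : Occ z' (t + m + 1 - l - i) s l := by
          intro j hj
          have e1 : z' (t + m + 1 - l - i + j) = z' (i + (l - 1 - j)) :=
            hsym _ _ (by omega) (by omega) (by omega)
          have e2 : z' (i + (l - 1 - j)) = z' (s + (l - 1 - j)) := hocc _ (by omega)
          have e3 : z' (s + (l - 1 - j)) = z' (s + j) :=
            hPz' _ _ (by omega) (by omega) (by omega)
          rw [e1, e2, e3]
        by_cases h2 : t + m + 1 - l - i + l ≤ m + 1
        · have := honly _ ((hocc_iff _ h2).1 hmir)
          omega
        · exfalso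
          omega
    · rw [hz1 _ (by omega), hz1 _ (by omega), hsl]
      exact hne
    · intro i hi
      exact hz1 i (by omega)
    · intro i
      show (if i ≤ m then z i else if i < t + m + 1 - s then z (t + m - i) else z 0) ∈ A
      split_ifs <;> exact hA _
    · have h1 := defect_const (z := z') (L := m + 1) (M := t + m + 1 - s) hnewz
        (t + m + 1 - s) (by omega) le_rfl
      rw [h1]
      have h2 : pre z' (m + 1) = pre z (m + 1) := pre_congr (fun i hi => hz1 i (by omega))
      rw [h2]
      exact h _

end Q224.ID
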