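import Pool.Agent.Q224.ID.Red

/-!
# Compactness and finiteness
-/

set_option autoImplicit false

namespace Q224.ID

theorem build (T : List ℕ → Prop) (w : List ℕ) (h0 : T w)
    (h : ∀ u, T u → ∃ x, T (u ++ [x])) :
    ∃ z : ℕ → ℕ, pre z w.length = w ∧ ∀ n, T (pre z (w.length + n)) := by
  classical
  let g : List ℕ → ℕ := fun u => if hu : T u then (h u hu).choose else 0
  have hg : ∀ u, T u → T (u ++ [g u]) := by
    intro u hu
    have := (h u hu).choose_spec
    simp only [g, dif_pos hu]
    exact this
  let U : ℕ → List ℕ := fun n => Nat.rec w (fun _ u => u ++ [g u]) n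
  have hU0 : U 0 = w := rfl
  have hUs : ∀ n, U (n + 1) = U n ++ [g (U n)] := fun n => rfl
  have hT : ∀ n, T (U n) := by
    intro n
    induction n with
    | zero => exact h0
    | succ n ih =>
      rw [hUs]
      exact hg _ ih
  have hlen : ∀ n, (U n).length = w.length + n := by
    intro n
    induction n with
    | zero => rfl
    | succ n ih =>
      rw [hUs, List.length_append, ih, List.length_singleton]
      omega
  have hpref : ∀ n m, n ≤ m → U n <+: U m := by
    intro n m hnm
    induction m, hnm using Nat.le_induction with
    | base => exact List.prefix_refl _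
    | succ m hm ih =>
      rw [hUs]
      exact ih.trans (List.prefix_append _ _)
  let z : ℕ → ℕ := fun i => (U (i + 1)).getD i 0
  have hz : ∀ n, pre z (w.length + n) = U n := by
    intro n
    apply List.ext_getElem
    · rw [pre_length, hlen]
    · intro i h1 h2
      rw [pre_getElem]
      have hi : i < (U (i + 1)).length := by
        have := hlen (i + 1)
        omega
      show (U (i + 1)).getD i 0 = _
      rw [List.getD_eq_getElem _ _ hi]
      rcases le_total n (i + 1) with h3 | h3
      · exact ((hpref _ _ h3).getElem h2).symm
      · exact ((hpref _ _ h3).getElem hi)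
  refine ⟨z, ?_, ?_⟩
  · have := hz 0
    rwa [add_zero] at this
  · intro n
    rw [hz]
    exact hT n

/-- König's lemma for the extensions of a word -/
theorem R_iff_all {w : List ℕ} {k : ℕ} : R w k ↔
    ∀ n : ℕ, ∃ v : List ℕ, v.length = n ∧ (∀ x ∈ v, x ∈ w) ∧ defect (w ++ v) ≤ k := by
  constructor
  · rintro ⟨z, hz, hlet, hk⟩ n
    refine ⟨seg z w.length n, seg_length _ _ _, ?_, ?_⟩
    · intro x hx
      unfold seg at hx
      rw [List.mem_map] at hx
      obtain ⟨i, _, rfl⟩ := hx
      exact hlet _
    · have := pre_split z 0 w.length n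
      rw [zero_add] at this
      have h2 : pre z (w.length + n) = w ++ seg z w.length n := by
        rw [this, ← pre_eq_seg, hz]
        simp [pre]
      rw [← h2]
      exact hk _
  · intro h
    obtain ⟨z, hz, hT⟩ := build (fun u => (∀ x ∈ u, x ∈ w) ∧ ∀ n : ℕ, ∃ v : List ℕ, v.length = n ∧
      (∀ x ∈ v, x ∈ w) ∧ defect (u ++ v) ≤ k) w ⟨fun x hx => hx, h⟩ (by
        rintro u ⟨hu1, hu2⟩
        by_contra hcon
        push Not at hcon
        have h1 : ∀ x ∈ w, ∃ n : ℕ, ∀ v : List ℕ, v.length = n → (∀ y ∈ v, y ∈ w) →
            k < defect (u ++ [x] ++ v) := by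
          intro x hx
          exact hcon x (by
            intro y hy
            rw [List.mem_append, List.mem_singleton] at hy
            rcases hy with hy | rfl
            · exact hu1 y hy
            · exact hx)
        choose! N hN using h1
        obtain ⟨M, hM⟩ : ∃ M, ∀ x ∈ w, N x ≤ M := by
          refine ⟨(w.map N).sum, fun x hx => ?_⟩
          exact List.single_le_sum (by simp) _ (List.mem_map_of_mem hx)
        obtain ⟨v, hv1, hv2, hv3⟩ := hu2 (M + 1)
        rcases v with _ | ⟨x, v⟩
        · simp at hv1
        · have hx : x ∈ w := hv2 x (by simp)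
          have hlen : v.length = M := by simpa using hv1
          have h2 := hN x hx (v.take (N x)) (by
            rw [List.length_take, hlen]
            exact min_eq_left (hM x hx)) (fun y hy => hv2 y (by
              simp only [List.mem_cons]
              exact Or.inr (List.mem_of_mem_take hy)))
          have h3 : defect (u ++ [x] ++ v.take (N x)) ≤ defect (u ++ x :: v) := by
            have e : u ++ x :: v = (u ++ [x] ++ v.take (N x)) ++ v.drop (N x) := by
              simp [List.take_append_drop]
            rw [e]
            exact defect_append_le _ _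
          omega)
    have hlet : ∀ i, z i ∈ w := by
      intro i
      apply (hT (i + 1)).1
      unfold pre
      rw [List.mem_map]
      exact ⟨i, List.mem_range.2 (by omega), rfl⟩
    refine ⟨z, hz, hlet, ?_⟩
    intro n
    obtain ⟨v, -, -, hv⟩ := (hT n).2 0
    have h1 : defect (pre z n) ≤ defect (pre z (w.length + n)) := defect_pre_mono z (by omega)
    exact h1.trans ((defect_append_le _ _).trans hv)

/-- every nonempty word has an extension of finite defect -/
theorem R_exists {w : List ℕ} (hne : w ≠ []) : ∃ k, R w k := by
  classical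
  set c := w.getLast hne with hc
  set z : ℕ → ℕ := fun i => if h : i < w.length then w[i] else c with hz
  have hex : ∃ s, ∀ i, s ≤ i → z i = c := by
    refine ⟨w.length, fun i hi => ?_⟩
    simp only [hz]
    rw [dif_neg (by omega)]
  set s := Nat.find hex with hs
  have hs1 : ∀ i, s ≤ i → z i = c := Nat.find_spec hex
  have hs2 : s = 0 ∨ z (s - 1) ≠ c := by
    rcases Nat.eq_zero_or_pos s with h | h
    · exact Or.inl h
    · right
      intro hcon
      have := Nat.find_min hex (m := s - 1) (by omega)
      apply this
      intro i hi
      rcases Nat.lt_or_ge i s with h1 | h1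
      · have : i = s - 1 := by omega
        rw [this]
        exact hcon
      · exact hs1 i h1
  have hnew : ∀ n, 2 * s ≤ n → NewF z n := by
    intro n hn
    refine ⟨s, by omega, ?_, ?_⟩
    · intro i j hi hj _
      rw [hs1 i hi, hs1 j hj]
    · intro i hi hocc
      rcases hs2 with h | h
      · omega
      · apply h
        have h1 := hocc (s - 1 - i) (by omega)
        have e : i + (s - 1 - i) = s - 1 := by omega
        rw [e] at h1
        rw [h1]
        exact hs1 _ (by omega)
  refine ⟨defect (pre z (2 * s)), z, ?_, ?_, ?_⟩
  · apply List.ext_getElem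
    · rw [pre_length]
    · intro i h1 h2
      rw [pre_getElem]
      simp only [hz]
      rw [dif_pos h2]
  · intro i
    simp only [hz]
    split_ifs with h
    · exact List.getElem_mem h
    · exact List.getLast_mem hne
  · intro n
    rcases le_total n (2 * s) with h | h
    · exact defect_pre_mono _ h
    · exact (defect_const (M := n) (fun m hm _ => hnew m hm) n h le_rfl).le

/-- certificates as lists -/
def CertL (w : List ℕ) (k : ℕ) (v : List ℕ) : Prop :=
  w <+: v ∧ (∀ x ∈ v, x ∈ w) ∧ defect v ≤ k ∧ ∃ s l, Cert (fun i => v.getD i 0) v.length s l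

theorem Cert.congr {z z' : ℕ → ℕ} {L s l : ℕ} (c : Cert z L s l) (h : ∀ i, i < L → z i = z' i) :
    Cert z' L s l := by
  obtain ⟨hl, hL, palQ, palP, occ, ne⟩ := c
  refine ⟨hl, hL, ?_, ?_, ?_, ?_⟩
  · intro i j hi hj hij
    rw [← h i (by omega), ← h j (by omega)]
    exact palQ i j hi hj hij
  · intro i j hi hj hij
    rw [← h i (by omega), ← h j (by omega)]
    exact palP i j hi hj hij
  · intro i hi hocc
    refine occ i hi (fun j hj => ?_)
    rw [h _ (by omega), h _ (by omega)]
    exact hocc j hj
  · rcases ne with h0 | h0
    · exact Or.inl h0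
    · right
      rw [← h _ (by omega), ← h _ (by omega)]
      exact h0

theorem pre_getD (v : List ℕ) : pre (fun i => v.getD i 0) v.length = v := by
  apply List.ext_getElem
  · rw [pre_length]
  · intro i h1 h2
    rw [pre_getElem]
    exact List.getD_eq_getElem _ _ h2

theorem R_iff_cert {w : List ℕ} {k : ℕ} : R w k ↔ ∃ v, CertL w k v := by
  classical
  constructor
  · rintro ⟨z, hz, hlet, hk⟩
    obtain ⟨z', L, s, l, hc, hL, h1, h2, h3⟩ := cert_exists hk w.length w.toFinset
      (fun i => List.mem_toFinset.2 (hlet i))
    refine ⟨pre z' L, ?_, ?_, h3, s, l, ?_⟩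
    · have e1 : w = pre z' w.length := by
        rw [← hz]
        rw [pre_length]
        exact pre_congr (fun i hi => (h1 i hi).symm)
      have e2 := pre_split z' 0 w.length (L - w.length)
      rw [zero_add] at e2
      have e3 : w.length + (L - w.length) = L := by omega
      rw [e3, ← pre_eq_seg, ← e1] at e2
      rw [e2]
      simp [pre]
    · intro x hx
      unfold pre at hx
      rw [List.mem_map] at hx
      obtain ⟨i, _, rfl⟩ := hx
      exact List.mem_toFinset.1 (h2 i)
    · rw [pre_length]
      refine hc.congr (fun i hi => ?_)
      rw [List.getD_eq_getElem _ _ (by rw [pre_length]; exact hi), pre_getElem]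
  · rintro ⟨v, hpre, hlet, hk, s, l, hc⟩
    refine ⟨Q224.ID.ext (fun i => v.getD i 0) v.length s l, ?_, ?_, ?_⟩
    · have hle : w.length ≤ v.length := hpre.length_le
      rw [pre_congr (z' := fun i => v.getD i 0) (fun i hi => hc.ext_eq (by omega))]
      apply List.ext_getElem
      · rw [pre_length]
      · intro i h1 h2
        rw [pre_getElem, List.getD_eq_getElem _ _ (by omega)]
        exact (hpre.getElem h2).symm
    · intro i
      obtain ⟨j, hj, hij⟩ := hc.ext_range i
      rw [hij]
      apply hlet
      rw [List.getD_eq_getElem _ _ hj]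
      exact List.getElem_mem hj
    · intro n
      refine (hc.defect_le n).trans ?_
      rw [pre_getD]
      exact hk

end Q224.ID
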