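import Pool.Agent.Q224.ID.Exist

/-!
# Reduction to right-infinite words starting with the given word
-/

set_option autoImplicit false

namespace Q224.ID

/-- some right-infinite word over the letters of `w` which starts with `w` has defect at most
`k` -/
def R (w : List ℕ) (k : ℕ) : Prop :=
  ∃ z : ℕ → ℕ, pre z w.length = w ∧ (∀ i, z i ∈ w) ∧ ∀ n, defect (pre z n) ≤ k

theorem defect_le_of_factor {I : Set ℤ} {z : ℤ → ℕ} {u : List ℕ} {k : ℕ} (hu : IsFactor I z u)
    (h : defectInf I z ≤ (k : ℕ∞)) : defect u ≤ k := by
  have h1 : (defect u : ℕ∞) ≤ defectInf I z := by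
    unfold defectInf
    exact le_iSup₂_of_le u hu le_rfl
  exact_mod_cast h1.trans h

theorem seg_infix (z : ℕ → ℕ) (a m : ℕ) : seg z a m <:+: pre z (a + m) := by
  rw [infix_pre, seg_length]
  exact ⟨a, le_rfl, rfl⟩

theorem pre_eq_seg (z : ℕ → ℕ) (n : ℕ) : pre z n = seg z 0 n := by
  unfold pre seg
  congr 1
  funext i
  rw [zero_add]

theorem map_reverse_eq {β : Type*} (n : ℕ) (f g : ℕ → β) (h : ∀ i, i < n → f i = g (n - 1 - i)) :
    (List.range n).map f = ((List.range n).map g).reverse := by
  apply List.ext_getElem
  · simp
  · intro i h1 h2
    rw [List.getElem_reverse]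
    simp only [List.getElem_map, List.getElem_range, List.length_map, List.length_range]
    exact h i (by simpa using h1)

theorem R_of_ext {w : List ℕ} {k : ℕ} (h : ∃ d ∈ extensionDefects w, d ≤ (k : ℕ∞)) :
    R w k ∨ R w.reverse k := by
  obtain ⟨d, ⟨I, z, hI, hw, hlet, rfl⟩, hd⟩ := h
  have hne : w ≠ [] := by
    rintro rfl
    rcases hI with rfl | rfl | rfl
    · exact absurd (hlet 1 (by simp)) (by simp)
    · exact absurd (hlet (-1) (by simp)) (by simp)
    · exact absurd (hlet 0 (by simp)) (by simp)
  have hpos : 0 < w.length := List.length_pos_iff.2 hne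
  obtain ⟨a, ha, hwa⟩ := hw
  have key : (∀ i : ℕ, a + i ∈ I) ∨ (∀ i : ℕ, a + w.length - 1 - i ∈ I) := by
    rcases hI with rfl | rfl | rfl
    · left
      intro i
      have h0 := ha 0 hpos
      simp only [Set.mem_ofPred_eq] at h0 ⊢
      push_cast at h0
      omega
    · right
      intro i
      have h0 := ha (w.length - 1) (by omega)
      simp only [Set.mem_ofPred_eq] at h0 ⊢
      push_cast [Nat.cast_sub (show 1 ≤ w.length by omega)] at h0
      omega
    · left
      intro i
      exact Set.mem_univ _
  rcases key with hk | hk
  · left
    refine ⟨fun i => z (a + i), ?_, fun i => hlet _ (hk i), ?_⟩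
    · exact hwa.symm
    · intro n
      refine defect_le_of_factor (I := I) (z := z) ⟨a, ?_, ?_⟩ hd
      · intro i _
        exact hk i
      · rw [pre_length]
        rfl
  · right
    refine ⟨fun i => z (a + w.length - 1 - i), ?_, ?_, ?_⟩
    · rw [List.length_reverse]
      conv_rhs => rw [hwa]
      unfold pre
      apply map_reverse_eq
      intro i hi
      congr 1
      rw [Nat.cast_sub (by omega), Nat.cast_sub (by omega)]
      push_cast
      ring
    · intro i
      rw [List.mem_reverse]
      exact hlet _ (hk i)
    · intro n
      rw [← defect_reverse]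
      refine defect_le_of_factor (I := I) (z := z) ⟨a + w.length - n, ?_, ?_⟩ hd
      · intro i hi
        rw [List.length_reverse, pre_length] at hi
        have := hk (n - 1 - i)
        rw [Nat.cast_sub (by omega), Nat.cast_sub (by omega)] at this
        push_cast at this
        have e : a + (w.length : ℤ) - 1 - (n - 1 - i) = a + w.length - n + i := by ring
        rwa [e] at this
      · rw [List.length_reverse, pre_length]
        symm
        apply map_reverse_eq
        intro i hi
        congr 1
        rw [Nat.cast_sub (by omega), Nat.cast_sub (by omega)]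
        push_cast
        ring

theorem ext_of_R {w : List ℕ} {k : ℕ} (hne : w ≠ []) (h : R w k ∨ R w.reverse k) :
    ∃ d ∈ extensionDefects w, d ≤ (k : ℕ∞) := by
  have hpos : 0 < w.length := List.length_pos_iff.2 hne
  rcases h with ⟨z, hz, hlet, hk⟩ | ⟨z, hz, hlet, hk⟩
  · refine ⟨_, ⟨{i | 0 < i}, fun j => z (j - 1).toNat, Or.inl rfl, ⟨1, ?_, ?_⟩, ?_, rfl⟩, ?_⟩
    · intro i _
      simp only [Set.mem_ofPred_eq]
      omega
    · conv_lhs => rw [← hz]
      unfold pre
      apply List.map_congr_left
      intro i _
      congr 1
      omega
    · intro i _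
      exact hlet _
    · unfold defectInf
      refine iSup₂_le ?_
      rintro u ⟨a, ha, hu⟩
      rcases Nat.eq_zero_or_pos u.length with h0 | h0
      · rw [List.length_eq_zero_iff.1 h0, defect_nil]
        simp
      · have ha0 := ha 0 h0
        simp only [Set.mem_ofPred_eq] at ha0
        have hinf : u <:+: pre z ((a - 1).toNat + u.length) := by
          have : u = seg z (a - 1).toNat u.length := by
            conv_lhs => rw [hu]
            unfold seg
            apply List.map_congr_left
            intro i _
            beta_reduce
            congr 1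
            omega
          rw [infix_pre]
          exact ⟨_, le_rfl, this⟩
        exact_mod_cast (defect_infix hinf).trans (hk _)
  · rw [List.length_reverse] at hz
    refine ⟨_, ⟨{i | i < 0}, fun j => z (-j - 1).toNat, Or.inr (Or.inl rfl), ⟨-w.length, ?_, ?_⟩,
      ?_, rfl⟩, ?_⟩
    · intro i _
      simp only [Set.mem_ofPred_eq]
      omega
    · have hz' : w = (pre z w.length).reverse := by rw [hz, List.reverse_reverse]
      conv_lhs => rw [hz']
      symm
      unfold pre
      apply map_reverse_eq
      intro i hi
      beta_reduce
      congr 1
      omega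
    · intro i _
      exact List.mem_reverse.1 (hlet _)
    · unfold defectInf
      refine iSup₂_le ?_
      rintro u ⟨a, ha, hu⟩
      rcases Nat.eq_zero_or_pos u.length with h0 | h0
      · rw [List.length_eq_zero_iff.1 h0, defect_nil]
        simp
      · have ha0 := ha (u.length - 1) (by omega)
        simp only [Set.mem_ofPred_eq] at ha0
        rw [Nat.cast_sub (by omega)] at ha0
        push_cast at ha0
        have hinf : u.reverse <:+: pre z ((-a - u.length).toNat + u.length) := by
          have : u.reverse = seg z (-a - u.length).toNat u.length := by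
            conv_lhs => rw [hu]
            unfold seg
            symm
            apply map_reverse_eq
            intro i hi
            beta_reduce
            congr 1
            omega
          rw [infix_pre]
          exact ⟨_, by rw [List.length_reverse], by rw [List.length_reverse]; exact this⟩
        rw [← defect_reverse]
        exact_mod_cast (defect_infix hinf).trans (hk _)

end Q224.ID
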